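import Pool.Agent.P.MP_152bd8_lc.Main

set_option autoImplicit false

namespace Pool.Agent.Results.MP_152bd8_lc.Brandt

open Pool.Agent.P.MP_152bd8_lc

/-- Q2: for every pseudovariety `V` of finite groups with decidable universal theory, the class
of finite Brandt semigroups over groups in `V` is completely solvable. -/
theorem result (V : GCls) (hV : IsPseudovariety V) (hd : DecidableUnivTheory V) :
    CompletelySolvable (BrandtOver V) := by
  rw [brandtOver_eq]
  exact phi_solvable hV hd

end Pool.Agent.Results.MP_152bd8_lc.Brandt
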